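import Mathlib
import Pool.Graph.R_pool_sql_team_seeded_63374d34.N122.Par2

/-! # Moving linear subspaces of a cubic hypersurface: the parity in the fibres -/

set_option autoImplicit false

namespace Pool.Agent.Helper50.CM

open MvPolynomial Pool.Agent.TH314.PD Module FF Pool.Agent.Y201.C3 IntermediateField
open Pool.Agent.R845.T2 Pool.Agent.R845.E3 Pool.Agent.N122

noncomputable section

/-- the transcendence degree of a field generated by finitely many elements over `K` -/
theorem trdeg_adjoin_le {M : Type} [Field M] [Algebra ℂ M] (K : IntermediateField ℂ M)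
    {ι : Type} [Fintype ι] (u : ι → M) :
    Algebra.trdeg ℂ (IntermediateField.adjoin K (Set.range u)) ≤
      Algebra.trdeg ℂ K + Fintype.card ι := by
  set A := IntermediateField.adjoin K (Set.range u) with hA
  have h1 : Algebra.trdeg ℂ K + Algebra.trdeg K A = Algebra.trdeg ℂ A :=
    trdeg_add_eq ℂ K (A := A)
  rw [← h1]
  have hmem : ∀ i, u i ∈ A := fun i => subset_adjoin K _ ⟨i, rfl⟩
  let u' : ι → A := fun i => ⟨u i, hmem i⟩
  have halg : Algebra.IsAlgebraic (Algebra.adjoin K (Set.range u')) A := by
    have h2 : ∀ x ∈ A, ∀ hx : x ∈ A, IsAlgebraic (Algebra.adjoin K (Set.range u')) (⟨x, hx⟩ : A) := by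
      intro x hx
      induction hx using IntermediateField.adjoin_induction with
      | mem x h =>
        intro hx
        obtain ⟨i, rfl⟩ := h
        exact isAlgebraic_algebraMap (⟨u' i, Algebra.subset_adjoin ⟨i, rfl⟩⟩ :
          Algebra.adjoin K (Set.range u'))
      | algebraMap x =>
        intro hx
        exact isAlgebraic_algebraMap (algebraMap K (Algebra.adjoin K (Set.range u')) x)
      | add x y hx hy h1 h2 =>
        intro hxy
        exact (h1 hx).add (h2 hy)
      | inv x hx h =>
        intro hxi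
        have h3 : (⟨x⁻¹, hxi⟩ : A) = (⟨x, hx⟩ : A)⁻¹ := rfl
        rw [h3]
        exact (h hx).inv
      | mul x y hx hy h1 h2 =>
        intro hxy
        exact (h1 hx).mul (h2 hy)
    exact ⟨fun x => h2 x.1 x.2 x.2⟩
  refine add_le_add le_rfl ?_
  refine (Algebra.IsAlgebraic.trdeg_le_cardinalMk K (Set.range u')).trans ?_
  refine Cardinal.mk_range_le.trans ?_
  rw [Cardinal.mk_fintype]

/-- no large families of independent elements -/
theorem dep_of_trdeg {M : Type} [Field M] [Algebra ℂ M] (K : IntermediateField ℂ M) {m : ℕ}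
    (hK : Algebra.trdeg ℂ K ≤ m) (y : Fin (m + 1) → M) (hy : ∀ i, y i ∈ K) :
    ¬ AlgebraicIndependent ℂ y := by
  intro hAI
  have h1 : AlgebraicIndependent ℂ (fun i => ⟨y i, hy i⟩ : Fin (m + 1) → K) := by
    refine AlgebraicIndependent.of_comp K.val ?_
    exact hAI
  have h3 := h1.cardinalMk_le_trdeg
  have h4 := h3.trans hK
  rw [Cardinal.mk_fin] at h4
  have h5 : m + 1 ≤ m := by exact_mod_cast h4
  omega

/-- a generic point does not lie on a linear subspace defined over a small field -/
theorem not_gpP {n m P : ℕ} (hn : m + P ≤ n) {F : MvPolynomial (Fin (n + 2)) ℂ}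
    (hF : F.IsHomogeneous 3) (hF0 : F ≠ 0) {M : Type} [Field M] [Algebra ℂ M]
    (K : IntermediateField ℂ M) (hK : Algebra.trdeg ℂ K ≤ m)
    (l : Fin P → Fin (n + 2) → M) (hl : ∀ i a, l i a ∈ K) (θ : Fin P → M) :
    ¬ Gp F (lam l θ) := by
  classical
  intro h
  obtain ⟨j, hj, hAI⟩ := exists_indep' hF (by norm_num) hF0 h.2
  have hθ : ∃ i, θ i ≠ 0 := by
    by_contra hcon
    push Not at hcon
    apply hj
    unfold lam
    exact Finset.sum_eq_zero fun i _ => by rw [hcon, zero_mul]
  obtain ⟨i0, hi0⟩ := hθ
  -- the field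
  let u : {i : Fin P // i ≠ i0} → M := fun i => θ i / θ i0
  have hcard : Fintype.card {i : Fin P // i ≠ i0} = P - 1 := by
    rw [Fintype.card_subtype_compl, Fintype.card_fin, Fintype.card_subtype_eq]
  have hP : 1 ≤ P := by
    have := i0.2
    omega
  have h1 := trdeg_adjoin_le K u
  set A := IntermediateField.adjoin K (Set.range u) with hA
  have hc : ∀ a, lam l θ a / θ i0 ∈ A := by
    intro a
    unfold lam
    rw [Finset.sum_div]
    refine sum_mem fun i _ => ?_
    have h2 : θ i * l i a / θ i0 = θ i / θ i0 * l i a := by ring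
    rw [h2]
    refine mul_mem ?_ ?_
    · by_cases hi : i = i0
      · rw [hi, div_self hi0]
        exact one_mem _
      · exact subset_adjoin K _ ⟨⟨i, hi⟩, rfl⟩
    · exact IntermediateField.algebraMap_mem A (⟨l i a, hl i a⟩ : K)
  have hr : ∀ a b, lam l θ a / lam l θ b ∈ A := by
    intro a b
    have h2 := div_mem (hc a) (hc b)
    rwa [div_div_div_cancel_right₀ hi0] at h2
  have h3 : Algebra.trdeg ℂ A ≤ ((m + (P - 1) : ℕ) : Cardinal) := by
    refine h1.trans ?_
    rw [hcard]
    push_cast
    exact add_le_add hK le_rfl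
  have hlt : m + (P - 1) + 1 ≤ n := by omega
  have h4 := hAI.comp (Fin.castLE hlt) (Fin.castLE_injective hlt)
  have h5 : ∀ i, ((fun l' : Fin n => lam l θ (j.succAbove l'.succ) / lam l θ (j.succAbove 0)) ∘
      Fin.castLE hlt) i ∈ A := fun i => hr _ _
  have h6 := dep_of_trdeg (M := M) (A.restrictScalars ℂ) (m := m + (P - 1)) h3 _ h5
  exact h6 h4

/-- a generic point and a point which is not generic are linearly independent -/
theorem indep_of_not_gp {n : ℕ} {F : MvPolynomial (Fin (n + 2)) ℂ}
    (hF : F.IsHomogeneous 3) {M : Type} [Field M] [Algebra ℂ M]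
    (x c : Fin (n + 2) → M) (hG : Gp F x) (hc0 : c ≠ 0) (hc : ¬ Gp F c) :
    LinearIndependent M ![x, c] := by
  rw [LinearIndependent.pair_iff]
  intro u v huv
  have hu : u = 0 := by
    by_contra hu
    have hv : v ≠ 0 := by
      intro hv
      have h1 : ∀ i, x i = 0 := by
        intro i
        have h2 := congrFun huv i
        simp only [Pi.add_apply, Pi.smul_apply, smul_eq_mul, Pi.zero_apply, hv, zero_mul,
          add_zero] at h2
        exact (mul_eq_zero.1 h2).resolve_left hu
      exact coord_ne_zero hF (by norm_num) x hG.2 0 (h1 0)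
    apply hc
    have h1 : c = fun i => (-u / v) * x i := by
      funext i
      have h2 := congrFun huv i
      simp only [Pi.add_apply, Pi.smul_apply, smul_eq_mul, Pi.zero_apply] at h2
      field_simp
      linear_combination h2
    have hne : -u / v ≠ 0 := div_ne_zero (neg_ne_zero.2 hu) hv
    refine ⟨by rw [h1, aeval_smul_form hF, hG.1, mul_zero], fun e H hH h0 => ?_⟩
    rw [h1, aeval_smul_form hH] at h0
    exact hG.2 e H hH ((mul_eq_zero.1 h0).resolve_left (pow_ne_zero _ hne))
  refine ⟨hu, ?_⟩
  by_contra hv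
  apply hc0
  funext i
  have h2 := congrFun huv i
  simp only [Pi.add_apply, Pi.smul_apply, smul_eq_mul, Pi.zero_apply, hu, zero_mul,
    zero_add] at h2
  exact (mul_eq_zero.1 h2).resolve_left hv

/-- the bound implies that the dimension is large enough -/
theorem gd_le {N : ℕ} : ∀ (m P : ℕ), Gd N m P → (P + m) * (P + m + 3) < 2 * N := by
  intro m
  induction m with
  | zero =>
    intro P h
    rcases h with h | h
    · unfold Cnd at h
      simp only [pow_zero, one_mul, mul_one] at h
      rw [add_zero]
      omega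
    · unfold Cnq at h
      simp only [pow_zero, one_mul] at h
      rw [add_zero]
      omega
  | succ m ih =>
    intro P h
    have h1 := ih (P + 1) h.2.2
    have h2 : P + (m + 1) = P + 1 + m := by ring
    rw [h2]
    exact h1

theorem gd_le' {n m P : ℕ} (h : Gd (n + 2) m P) : m + P ≤ n := by
  have h1 := gd_le m P h
  by_contra hcon
  push Not at hcon
  have h2 : n + 1 ≤ P + m := by omega
  have h3 : (n + 1) * (n + 1 + 3) ≤ (P + m) * (P + m + 3) :=
    Nat.mul_le_mul h2 (by omega)
  nlinarith

/-- **The parity of the degree is constant in the fibres of the projection from a linear subspace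
of the hypersurface which moves slowly.** -/
theorem chordP {n m P : ℕ} (hgd : Gd (n + 2) m P) {F : MvPolynomial (Fin (n + 2)) ℂ}
    (hF : F.IsHomogeneous 3) (hsm : Sm F) {T : Fin (n + 2) → Fin (n + 2) → Fin (n + 2) → ℂ}
    (hT : SymG T) (hFT : F = Bg T X X X) {M : Type} [Field M] [Algebra ℂ M]
    (x : Fin (n + 2) → M) (hG : Gp F x) (hodd : Odd (finrank (ratioField x) M))
    (K : IntermediateField ℂ M) (hK : Algebra.trdeg ℂ K ≤ m)
    (l : Fin P → Fin (n + 2) → M) (hl : ∀ i a, l i a ∈ K) (hli : LinearIndependent M l)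
    (hiso : ∀ i j k, Bg T (l i) (l j) (l k) = 0) (s : M) (hs : s ≠ 0) (θ : Fin P → M)
    (hst : aeval (fun a => s * x a + lam l θ a) F = 0) :
    Gp F (fun a => s * x a + lam l θ a) ∧
      Odd (finrank (ratioField fun a => s * x a + lam l θ a) M) := by
  classical
  have hF0 : F ≠ 0 := ne_zero_of_smooth (m := n + 1) hsm
  have hn := gd_le' hgd
  by_cases hc0 : lam l θ = 0
  · have h1 : (fun a => s * x a + lam l θ a) = fun a => s * x a := by
      funext a
      rw [hc0, Pi.zero_apply, add_zero]
    rw [h1]
    exact scale hF x s hs hG hodd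
  set c := lam l θ with hc
  have hev : ∀ {R : Type} [CommRing R] [Algebra ℂ R] (v : Fin (n + 2) → R),
      aeval v F = Bg T v v v := by
    intro R _ _ v
    conv_lhs => rw [hFT]
    exact aeval_frmG T v
  have hcF : aeval c F = 0 := by
    rw [hev, hc]
    exact iso_lam hT hiso θ θ θ
  have hng := not_gpP hn hF hF0 K hK l hl θ
  have hst' : aeval (fun j => s * x j + 1 * c j) F = 0 := by
    simp only [one_mul]
    exact hst
  rcases chord_gen1 hF hsm x c hG hodd (indep_of_not_gp hF x c hG hc0 hng) hcF hng s 1 hs hst' with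
    h | ⟨hzgen, hzodd⟩
  · have h1 : (fun a => s * x a + c a) = fun a => s * x a + 1 * c a := by
      funext a
      rw [one_mul]
    rw [h1]
    exact h
  exfalso
  let E := FractionRing (Polynomial M)
  let f : M →ₐ[ℂ] E := (IsScalarTower.toAlgHom ℂ (Polynomial M) E).comp
    (IsScalarTower.toAlgHom ℂ M (Polynomial M))
  have hf : ∀ a, f a = algebraMap (Polynomial M) E (Polynomial.C a) := fun _ => rfl
  let l' : Fin P → Fin (n + 2) → E := fun i a => f (l i a)
  refine ss hF hsm hT hFT m P hgd E _ hzgen hzodd (K.map f) ?_ l' ?_ ?_ ?_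
    (fun i => -(algebraMap (Polynomial M) E Polynomial.X * f (θ i))) ?_
  · intro y hy hAI
    choose a ha hay using hy
    apply dep_of_trdeg K hK a ha
    have h1 : y = f ∘ a := (funext hay).symm
    rw [h1] at hAI
    exact hAI.of_comp f
  · intro i a
    exact ⟨l i a, hl i a, rfl⟩
  · have h1 : LinearIndependent E (fun i a => algebraMap M E (l i a)) := li_map l hli
    exact h1
  · intro i j k
    have h1 : Bg T (l' i) (l' j) (l' k) = f (Bg T (l i) (l j) (l k)) := (map_Bg f T _ _ _).symm
    rw [h1, hiso, map_zero]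
  · have h1 : (fun a => algebraMap (Polynomial M) E (Polynomial.C (x a) +
        Polynomial.X * Polynomial.C (c a)) + lam l' (fun i => -(algebraMap (Polynomial M) E
        Polynomial.X * f (θ i))) a) = fun a => f (x a) := by
      funext a
      have h2 : lam l' (fun i => -(algebraMap (Polynomial M) E Polynomial.X * f (θ i))) a =
          -(algebraMap (Polynomial M) E Polynomial.X * f (c a)) := by
        simp only [hc, lam, map_sum, map_mul]
        rw [neg_mul_eq_neg_mul, Finset.mul_sum]
        exact Finset.sum_congr rfl fun i _ => by ring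
      rw [h2, map_add, map_mul, ← hf, ← hf]
      ring
    rw [h1, ← map_Bg, ← hev, hG.1, map_zero]

end

end Pool.Agent.Helper50.CM
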