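import Mathlib

/-! # Quadratic forms over a polynomial ring in one variable with small degrees

The descent: a quadratic form with coefficients `G i j` of degree at most `1 + w i + w j` (`w = 1` for
one index, `w = 0` for all the others) is anisotropic over the field of rational functions if its
value at `0` is anisotropic on `u none = 0` and it has no zero of degree one. -/

set_option autoImplicit false

namespace Pool.Agent.Helper50.CM

open Polynomial

noncomputable section

section

variable {K : Type} [Field K] {P : ℕ}

/-- the weights -/
def wt : Option (Fin P) → ℕ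
  | none => 1
  | some _ => 0

/-- the bilinear form -/
def bq (G : Option (Fin P) → Option (Fin P) → K[X]) (u u' : Option (Fin P) → K[X]) : K[X] :=
  ∑ i, ∑ j, G i j * u i * u' j

variable (G : Option (Fin P) → Option (Fin P) → K[X])

theorem bq_add_left (u v w : Option (Fin P) → K[X]) :
    bq G (fun i => u i + v i) w = bq G u w + bq G v w := by
  unfold bq
  rw [← Finset.sum_add_distrib]
  refine Finset.sum_congr rfl fun i _ => ?_
  rw [← Finset.sum_add_distrib]
  exact Finset.sum_congr rfl fun j _ => by ring

theorem bq_smul_left (c : K[X]) (u w : Option (Fin P) → K[X]) :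
    bq G (fun i => c * u i) w = c * bq G u w := by
  unfold bq
  rw [Finset.mul_sum]
  refine Finset.sum_congr rfl fun i _ => ?_
  rw [Finset.mul_sum]
  exact Finset.sum_congr rfl fun j _ => by ring

theorem bq_add_right (u v w : Option (Fin P) → K[X]) :
    bq G u (fun i => v i + w i) = bq G u v + bq G u w := by
  unfold bq
  rw [← Finset.sum_add_distrib]
  refine Finset.sum_congr rfl fun i _ => ?_
  rw [← Finset.sum_add_distrib]
  exact Finset.sum_congr rfl fun j _ => by ring

theorem bq_smul_right (c : K[X]) (u w : Option (Fin P) → K[X]) :
    bq G u (fun i => c * w i) = c * bq G u w := by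
  unfold bq
  rw [Finset.mul_sum]
  refine Finset.sum_congr rfl fun i _ => ?_
  rw [Finset.mul_sum]
  exact Finset.sum_congr rfl fun j _ => by ring

theorem bq_symm (hG : ∀ i j, G i j = G j i) (u v : Option (Fin P) → K[X]) :
    bq G u v = bq G v u := by
  unfold bq
  rw [Finset.sum_comm]
  refine Finset.sum_congr rfl fun i _ => Finset.sum_congr rfl fun j _ => ?_
  rw [hG j i]
  ring

/-- the degrees -/
def Dw (e : ℕ) (u : Option (Fin P) → K[X]) : Prop := ∀ i, u i = 0 ∨ (u i).natDegree + wt i ≤ e

theorem bq_degree (hdeg : ∀ i j, (G i j).natDegree ≤ 1 + wt i + wt j) {e e' : ℕ}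
    {u u' : Option (Fin P) → K[X]} (hu : Dw e u) (hu' : Dw e' u') :
    (bq G u u').natDegree ≤ 1 + e + e' := by
  unfold bq
  refine natDegree_sum_le_of_forall_le _ _ fun i _ => natDegree_sum_le_of_forall_le _ _ fun j _ => ?_
  rcases hu i with h | h
  · rw [h, mul_zero, zero_mul, natDegree_zero]
    omega
  rcases hu' j with h' | h'
  · rw [h', mul_zero, natDegree_zero]
    omega
  have h1 := natDegree_mul_le (p := G i j * u i) (q := u' j)
  have h2 := natDegree_mul_le (p := G i j) (q := u i)
  have h3 := hdeg i j
  omega

theorem X_dvd_of_coeff_zero {p : K[X]} (h : p.coeff 0 = 0) : ∃ q, p = X * q := X_dvd_iff.2 h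

/-- **Descent.** -/
theorem aniso [CharZero K] (hG : ∀ i j, G i j = G j i)
    (hdeg : ∀ i j, (G i j).natDegree ≤ 1 + wt i + wt j)
    (h0 : ∀ u : Option (Fin P) → K, u none = 0 → ∑ i, ∑ j, (G i j).coeff 0 * u i * u j = 0 → u = 0)
    (h1 : ∀ u : Option (Fin P) → K[X], Dw 1 u → (u none).coeff 0 ≠ 0 → bq G u u ≠ 0) :
    ∀ (e : ℕ) (u : Option (Fin P) → K[X]), Dw e u → bq G u u = 0 → u = 0 := by
  intro e
  induction e with
  | zero =>
    intro u hu hq
    have hnone : u none = 0 := by
      rcases hu none with h | h
      · exact h
      · simp [wt] at h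
    have hconst : ∀ i, u i = C ((u i).coeff 0) := by
      intro i
      rcases hu i with h | h
      · rw [h]
        simp
      · exact eq_C_of_natDegree_le_zero (by omega)
    have h2 := h0 (fun i => (u i).coeff 0) (by rw [hnone, coeff_zero]) (by
      have h3 := congrArg (fun p => coeff p 0) hq
      simp only [bq, finsetSum_coeff, mul_coeff_zero, coeff_zero] at h3
      exact h3)
    funext i
    rw [hconst i]
    have h3 := congrFun h2 i
    simp only [Pi.zero_apply] at h3
    rw [h3, C_0]
    rfl
  | succ e ih =>
    intro u hu hq
    by_contra hne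
    -- the value at zero is not zero
    have hu0 : ∃ i, (u i).coeff 0 ≠ 0 := by
      by_contra hcon
      push Not at hcon
      choose q hqe using fun i => X_dvd_of_coeff_zero (hcon i)
      have h2 : Dw e q := by
        intro i
        by_cases hi : q i = 0
        · exact Or.inl hi
        right
        rcases hu i with h | h
        · rw [hqe i] at h
          exact absurd ((mul_eq_zero.1 h).resolve_left X_ne_zero) hi
        · rw [hqe i, natDegree_X_mul hi] at h
          omega
      have h3 : bq G q q = 0 := by
        have h4 : u = fun i => X * q i := funext hqe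
        rw [h4, bq_smul_left, bq_smul_right] at hq
        have h5 : (X : K[X]) ≠ 0 := X_ne_zero
        rcases mul_eq_zero.1 hq with h | h
        · exact absurd h h5
        · exact (mul_eq_zero.1 h).resolve_left h5
      apply hne
      have h4 := ih q h2 h3
      funext i
      rw [hqe i, h4, Pi.zero_apply, mul_zero]
    -- the last coordinate does not vanish at zero
    have hd0 : (u none).coeff 0 ≠ 0 := by
      intro h
      obtain ⟨i, hi⟩ := hu0
      apply hi
      have h2 := h0 (fun i => (u i).coeff 0) h (by
        have h3 := congrArg (fun p => coeff p 0) hq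
        simp only [bq, finsetSum_coeff, mul_coeff_zero, coeff_zero] at h3
        exact h3)
      exact congrFun h2 i
    set d0 := (u none).coeff 0 with hd0d
    set d1 := (u none).coeff 1 with hd1d
    set κ : K[X] := C d0 - C d1 * X with hκ
    set u0 : Option (Fin P) → K[X] := fun i => C ((κ * u i).coeff 0) + C ((κ * u i).coeff 1) * X
      with hu0d
    have hκc : ∀ p : K[X], (κ * p).coeff 1 = d0 * p.coeff 1 - d1 * p.coeff 0 := by
      intro p
      rw [hκ, sub_mul, coeff_sub, coeff_C_mul, mul_assoc, coeff_C_mul, coeff_X_mul p 0]
    have hκ0 : ∀ p : K[X], (κ * p).coeff 0 = d0 * p.coeff 0 := by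
      intro p
      rw [hκ, mul_coeff_zero]
      simp
    have hu0n : u0 none = C (d0 * d0) := by
      simp only [hu0d, hκc, hκ0]
      rw [← hd0d, ← hd1d]
      have h2 : d0 * d1 - d1 * d0 = 0 := by ring
      rw [h2, C_0, zero_mul, add_zero]
    have hDw0 : Dw 1 u0 := by
      intro i
      right
      rcases i with _ | i
      · rw [hu0n, natDegree_C]
        simp [wt]
      · simp only [wt, add_zero, hu0d]
        exact natDegree_add_le_of_degree_le (by rw [natDegree_C]; omega)
          ((natDegree_C_mul_le _ _).trans natDegree_X_le)
    have hq0 : bq G u0 u0 ≠ 0 := h1 u0 hDw0 (by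
      rw [hu0n, coeff_C_zero]
      exact mul_ne_zero hd0 hd0)
    -- the remainder
    have hR : ∀ i, ∃ r, κ * u i = u0 i + X ^ 2 * r := by
      intro i
      have h2 : X ^ 2 ∣ κ * u i - u0 i := by
        rw [X_pow_dvd_iff]
        intro k hk
        rw [coeff_sub]
        simp only [hu0d, coeff_add, coeff_C_mul]
        interval_cases k
        · simp
        · simp [coeff_C]
      obtain ⟨r, hr⟩ := h2
      exact ⟨r, by rw [← hr]; ring⟩
    choose R hR using hR
    set N := bq G u0 u0 with hN
    set B := bq G u u0 with hB
    set p : Option (Fin P) → K[X] := fun i => N * u i + (-2 * B) * u0 i with hp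
    have hκu : (fun i => κ * u i) = fun i => u0 i + X ^ 2 * R i := funext hR
    have e1 : κ * B = N + X ^ 2 * bq G R u0 := by
      rw [hB, ← bq_smul_left, hκu, bq_add_left, bq_smul_left]
    have e2 : N + 2 * X ^ 2 * bq G R u0 + X ^ 4 * bq G R R = 0 := by
      have h2 : bq G (fun i => κ * u i) (fun i => κ * u i) = 0 := by
        rw [bq_smul_left, bq_smul_right, hq]
        ring
      rw [hκu] at h2
      have g1 := bq_add_left G u0 (fun i => X ^ 2 * R i) (fun i => u0 i + X ^ 2 * R i)
      have g2 := bq_add_right G u0 u0 (fun i => X ^ 2 * R i)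
      have g3 := bq_smul_right G (X ^ 2) u0 R
      have g4 := bq_smul_left G (X ^ 2) R (fun i => u0 i + X ^ 2 * R i)
      have g5 := bq_add_right G R u0 (fun i => X ^ 2 * R i)
      have g6 := bq_smul_right G (X ^ 2) R R
      have g7 := bq_symm G hG u0 R
      rw [g1, g2, g3, g4, g5, g6, g7] at h2
      linear_combination h2
    have e3 : ∀ i, X ^ 4 ∣ p i := by
      intro i
      have h2 : κ * p i = X ^ 4 * (bq G R R * u0 i - (2 * bq G R u0 + X ^ 2 * bq G R R) * R i) := by
        simp only [hp]
        linear_combination N * (hR i) - 2 * u0 i * e1 + (X ^ 2 * R i - u0 i) * e2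
      have h3 : IsCoprime (X ^ 4 : K[X]) κ := by
        refine IsCoprime.pow_left ?_
        refine (Irreducible.coprime_iff_not_dvd irreducible_X).2 ?_
        intro h4
        rw [X_dvd_iff] at h4
        apply hd0
        have h5 := hκ0 1
        rw [mul_one, coeff_one_zero, mul_one] at h5
        rw [← h5, h4]
      exact h3.dvd_of_dvd_mul_left (Dvd.intro _ h2.symm)
    choose p' hp' using e3
    have hNd : N.natDegree ≤ 3 := bq_degree G hdeg hDw0 hDw0
    have hBd : B.natDegree ≤ 1 + (e + 1) + 1 := bq_degree G hdeg hu hDw0
    have hDp : Dw e p' := by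
      intro i
      by_cases hi : p' i = 0
      · exact Or.inl hi
      right
      have h2 : (p i).natDegree = 4 + (p' i).natDegree := by
        rw [hp' i, natDegree_X_pow_mul _ hi, add_comm]
      have h3 : (p i).natDegree + wt i ≤ e + 4 := by
        have h4 : (N * u i).natDegree + wt i ≤ e + 4 ∨ N * u i = 0 := by
          rcases hu i with h | h
          · right
            rw [h, mul_zero]
          · left
            have := natDegree_mul_le (p := N) (q := u i)
            omega
        have h5 : (-2 * B * u0 i).natDegree + wt i ≤ e + 4 ∨ -2 * B * u0 i = 0 := by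
          rcases hDw0 i with h | h
          · right
            rw [h, mul_zero]
          · left
            have h6 := natDegree_mul_le (p := -2 * B) (q := u0 i)
            have h7 := natDegree_mul_le (p := (-2 : K[X])) (q := B)
            have h8 : (-2 : K[X]).natDegree = 0 := by
              rw [natDegree_neg]
              exact natDegree_ofNat 2
            omega
        have h6 : p i ≠ 0 := by
          rw [hp' i]
          exact mul_ne_zero (pow_ne_zero _ X_ne_zero) hi
        have h7 : p i = N * u i + -2 * B * u0 i := rfl
        rcases h4 with h4 | h4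
        · rcases h5 with h5 | h5
          · have h8 := natDegree_add_le (N * u i) (-2 * B * u0 i)
            rw [← h7] at h8
            have h9 : max (N * u i).natDegree (-2 * B * u0 i).natDegree + wt i ≤ e + 4 := by
              rcases le_total (N * u i).natDegree (-2 * B * u0 i).natDegree with h | h
              · rw [max_eq_right h]
                exact h5
              · rw [max_eq_left h]
                exact h4
            omega
          · rw [h7, h5, add_zero]
            exact h4
        · rcases h5 with h5 | h5
          · rw [h7, h4, zero_add]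
            exact h5
          · exact absurd (by rw [h7, h4, h5, add_zero]) h6
      omega
    have e4 : bq G p p = 0 := by
      rw [hp, bq_add_left, bq_add_right, bq_add_right, bq_smul_left, bq_smul_left, bq_smul_left,
        bq_smul_left, bq_smul_right, bq_smul_right, bq_smul_right, bq_smul_right,
        bq_symm G hG u0 u, hq, ← hB, ← hN]
      ring
    have e5 : bq G p' p' = 0 := by
      have h2 : p = fun i => X ^ 4 * p' i := funext hp'
      rw [h2, bq_smul_left, bq_smul_right] at e4
      have h5 : (X ^ 4 : K[X]) ≠ 0 := pow_ne_zero _ X_ne_zero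
      rcases mul_eq_zero.1 e4 with h | h
      · exact absurd h h5
      · exact (mul_eq_zero.1 h).resolve_left h5
    have e6 := ih p' hDp e5
    have e7 : ∀ i, N * u i = (2 * B) * u0 i := by
      intro i
      have h2 := hp' i
      rw [e6, Pi.zero_apply, mul_zero] at h2
      simp only [hp] at h2
      linear_combination h2
    have e8 : B = 0 := by
      have h2 : bq G (fun i => N * u i) (fun i => N * u i) = 0 := by
        rw [bq_smul_left, bq_smul_right, hq]
        ring
      rw [funext e7, bq_smul_left, bq_smul_right, ← hN] at h2
      have h3 : (2 : K[X]) ≠ 0 := by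
        have h5 : ((2 : ℕ) : K[X]) ≠ 0 := Nat.cast_ne_zero.2 (by norm_num)
        exact_mod_cast h5
      rcases mul_eq_zero.1 h2 with h | h
      · exact (mul_eq_zero.1 h).resolve_left h3
      · rcases mul_eq_zero.1 h with h | h
        · exact (mul_eq_zero.1 h).resolve_left h3
        · exact absurd h hq0
    apply hd0
    have h2 := e7 none
    rw [e8, mul_zero, zero_mul] at h2
    rw [hd0d, (mul_eq_zero.1 h2).resolve_left hq0, coeff_zero]

end

end

end Pool.Agent.Helper50.CM
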