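import Mathlib
import Pool.Agent.Helper50.CM.A
import Pool.Agent.Helper50.CM.B

/-! # The quadratic form of a linear section -/

set_option autoImplicit false

namespace Pool.Agent.Helper50.CM

open MvPolynomial Pool.Agent.TH314.PD Module FF Pool.Agent.Y201.C3 IntermediateField
open Pool.Agent.R845.T2 Pool.Agent.R845.E3 Pool.Agent.N122

noncomputable section

/-- the Gram matrix -/
def Gm {N P : ℕ} (T : Fin N → Fin N → Fin N → ℂ) {S : Type} [CommRing S] [Algebra ℂ S]
    (L : Fin P → Fin N → S) (W : Fin N → S) : Option (Fin P) → Option (Fin P) → S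
  | some i, some j => 6 * Bg T (L i) (L j) W
  | some i, none => 3 * Bg T (L i) W W
  | none, some j => 3 * Bg T (L j) W W
  | none, none => 2 * Bg T W W W

section gm

variable {N P : ℕ} {T : Fin N → Fin N → Fin N → ℂ} {S : Type} [CommRing S] [Algebra ℂ S]

theorem Gm_symm (hT : SymG T) (L : Fin P → Fin N → S) (W : Fin N → S) (i j : Option (Fin P)) :
    Gm T L W i j = Gm T L W j i := by
  rcases i with _ | i <;> rcases j with _ | j <;> simp only [Gm]
  rw [Bg_swap12 hT]

theorem Gm_map {S' : Type} [CommRing S'] [Algebra ℂ S'] (f : S →ₐ[ℂ] S')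
    (L : Fin P → Fin N → S) (W : Fin N → S) (i j : Option (Fin P)) :
    f (Gm T L W i j) = Gm T (fun i a => f (L i a)) (fun a => f (W a)) i j := by
  rcases i with _ | i <;> rcases j with _ | j <;>
    simp only [Gm, map_mul, map_ofNat, map_Bg]

/-- the combination, for rings -/
def lmr (L : Fin P → Fin N → S) (θ : Fin P → S) : Fin N → S := fun a => ∑ i, θ i * L i a

theorem Bg_lmr3 (hT : SymG T) (L : Fin P → Fin N → S) (x y : Fin N → S) (θ : Fin P → S) :
    Bg T x y (lmr L θ) = ∑ i, θ i * Bg T x y (L i) := by
  unfold lmr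
  rw [Bg_sum3 hT]
  exact Finset.sum_congr rfl fun i _ => Bg_smul3 T _ _ _ _

theorem Bg_lmr2 (hT : SymG T) (L : Fin P → Fin N → S) (x y : Fin N → S) (θ : Fin P → S) :
    Bg T x (lmr L θ) y = ∑ i, θ i * Bg T x (L i) y := by
  rw [Bg_swap23 hT, Bg_lmr3 hT]
  exact Finset.sum_congr rfl fun i _ => by rw [Bg_swap23 hT]

theorem Bg_lmr1 (hT : SymG T) (L : Fin P → Fin N → S) (x y : Fin N → S) (θ : Fin P → S) :
    Bg T (lmr L θ) x y = ∑ i, θ i * Bg T (L i) x y := by
  rw [Bg_swap12 hT, Bg_lmr2 hT]
  exact Finset.sum_congr rfl fun i _ => by rw [Bg_swap12 hT]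

theorem iso_lmr (hT : SymG T) {L : Fin P → Fin N → S} (h : ∀ i j k, Bg T (L i) (L j) (L k) = 0)
    (θ θ' θ'' : Fin P → S) : Bg T (lmr L θ) (lmr L θ') (lmr L θ'') = 0 := by
  rw [Bg_lmr1 hT]
  refine Finset.sum_eq_zero fun i _ => ?_
  rw [Bg_lmr2 hT, Finset.sum_eq_zero, mul_zero]
  intro j _
  rw [Bg_lmr3 hT, Finset.sum_eq_zero, mul_zero]
  intro k _
  rw [h, mul_zero]

/-- the value of the quadratic form -/
theorem Gm_sum (hT : SymG T) (L : Fin P → Fin N → S) (W : Fin N → S) (u : Option (Fin P) → S) :
    ∑ i, ∑ j, Gm T L W i j * u i * u j =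
      6 * Bg T (lmr L fun i => u (some i)) (lmr L fun i => u (some i)) W +
      6 * u none * Bg T (lmr L fun i => u (some i)) W W + 2 * u none ^ 2 * Bg T W W W := by
  have h1 : Bg T (lmr L fun i => u (some i)) (lmr L fun i => u (some i)) W =
      ∑ i, ∑ j, u (some i) * u (some j) * Bg T (L i) (L j) W := by
    rw [Bg_lmr1 hT]
    refine Finset.sum_congr rfl fun i _ => ?_
    rw [Bg_lmr2 hT, Finset.mul_sum]
    exact Finset.sum_congr rfl fun j _ => by ring
  have h2 : Bg T (lmr L fun i => u (some i)) W W = ∑ i, u (some i) * Bg T (L i) W W :=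
    Bg_lmr1 hT _ _ _ _
  rw [Fintype.sum_option]
  simp only [Fintype.sum_option, Gm]
  rw [h1, h2, Finset.sum_add_distrib, Finset.mul_sum, Finset.mul_sum]
  have e1 : ∑ i, ∑ j, 6 * Bg T (L i) (L j) W * u (some i) * u (some j) =
      ∑ i, 6 * ∑ j, u (some i) * u (some j) * Bg T (L i) (L j) W := by
    refine Finset.sum_congr rfl fun i _ => ?_
    rw [Finset.mul_sum]
    exact Finset.sum_congr rfl fun j _ => by ring
  have e2 : ∑ j, 3 * Bg T (L j) W W * u none * u (some j) =
      ∑ i, 3 * u none * (u (some i) * Bg T (L i) W W) :=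
    Finset.sum_congr rfl fun j _ => by ring
  have e3 : ∑ i, 3 * Bg T (L i) W W * u (some i) * u none =
      ∑ i, 3 * u none * (u (some i) * Bg T (L i) W W) :=
    Finset.sum_congr rfl fun j _ => by ring
  have e4 : ∑ i, 6 * u none * (u (some i) * Bg T (L i) W W) =
      ∑ i, 3 * u none * (u (some i) * Bg T (L i) W W) +
      ∑ i, 3 * u none * (u (some i) * Bg T (L i) W W) := by
    rw [← Finset.sum_add_distrib]
    exact Finset.sum_congr rfl fun j _ => by ring
  rw [e1, e2, e3, e4]
  ring

/-- the relation with the cubic form -/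
theorem Gm_cubic (hT : SymG T) {L : Fin P → Fin N → S} (h : ∀ i j k, Bg T (L i) (L j) (L k) = 0)
    (W : Fin N → S) (u : Option (Fin P) → S) :
    2 * Bg T (fun a => u none * W a + lmr L (fun i => u (some i)) a)
      (fun a => u none * W a + lmr L (fun i => u (some i)) a)
      (fun a => u none * W a + lmr L (fun i => u (some i)) a) =
      u none * ∑ i, ∑ j, Gm T L W i j * u i * u j := by
  rw [Gm_sum hT]
  have e5 := Bg_span3 hT W (lmr L fun i => u (some i)) (lmr L fun i => u (some i)) (u none) 1 0
  have e6 : (fun i => u none * W i + 1 * lmr L (fun i => u (some i)) i +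
      0 * lmr L (fun i => u (some i)) i) =
      fun a => u none * W a + lmr L (fun i => u (some i)) a := by
    funext i
    ring
  rw [e6, iso_lmr hT h] at e5
  rw [e5]
  have e7 : Bg T (lmr L fun i => u (some i)) (lmr L fun i => u (some i)) W =
      Bg T W (lmr L fun i => u (some i)) (lmr L fun i => u (some i)) := by
    rw [Bg_swap23 hT, Bg_swap12 hT]
  have e8 : Bg T (lmr L fun i => u (some i)) W W =
      Bg T W W (lmr L fun i => u (some i)) := by
    rw [Bg_swap12 hT, Bg_swap23 hT]
  rw [e7, e8]
  ring

end gm

/-- degrees of the values of the trilinear form -/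
theorem Bg_natDegree {N : ℕ} (T : Fin N → Fin N → Fin N → ℂ) {M : Type} [Field M] [Algebra ℂ M]
    {a b c : Fin N → Polynomial M} {p q r : ℕ} (ha : ∀ i, (a i).natDegree ≤ p)
    (hb : ∀ i, (b i).natDegree ≤ q) (hc : ∀ i, (c i).natDegree ≤ r) :
    (Bg T a b c).natDegree ≤ p + q + r := by
  unfold Bg
  refine Polynomial.natDegree_sum_le_of_forall_le _ _ fun i _ =>
    Polynomial.natDegree_sum_le_of_forall_le _ _ fun j _ =>
    Polynomial.natDegree_sum_le_of_forall_le _ _ fun k _ => ?_
  have h1 := Polynomial.natDegree_mul_le (p := algebraMap ℂ (Polynomial M) (T i j k) * a i * b j)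
    (q := c k)
  have h2 := Polynomial.natDegree_mul_le (p := algebraMap ℂ (Polynomial M) (T i j k) * a i)
    (q := b j)
  have h3 := Polynomial.natDegree_mul_le (p := algebraMap ℂ (Polynomial M) (T i j k))
    (q := a i)
  have h4 : (algebraMap ℂ (Polynomial M) (T i j k)).natDegree = 0 := by
    rw [IsScalarTower.algebraMap_apply ℂ M (Polynomial M), Polynomial.algebraMap_eq,
      Polynomial.natDegree_C]
  have := ha i
  have := hb j
  have := hc k
  omega

theorem two_natDegree {M : Type} [Field M] (c p : Polynomial M) (hc : c.natDegree = 0) :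
    (c * p).natDegree ≤ p.natDegree := by
  have h1 := Polynomial.natDegree_mul_le (p := c) (q := p)
  omega

/-- **The tangent law**: `B(c, c, x) ≠ 0` for an odd point `x` and a point `c` of the hypersurface
which is not generic. -/
theorem tan_law {n : ℕ} {F : MvPolynomial (Fin (n + 2)) ℂ}
    (hF : F.IsHomogeneous 3) (hsm : Sm F) {T : Fin (n + 2) → Fin (n + 2) → Fin (n + 2) → ℂ}
    (hT : SymG T) (hFT : F = Bg T X X X) {M : Type} [Field M] [Algebra ℂ M]
    (x : Fin (n + 2) → M) (hG : Gp F x) (hodd : Odd (finrank (ratioField x) M))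
    (c : Fin (n + 2) → M) (hxc : LinearIndependent M ![x, c]) (hcF : aeval c F = 0) :
    Bg T x c c ≠ 0 := by
  intro h0
  have tan : S_TAN := tan_of div (nt Pool.Agent.Y201.LI.hT1) fi fd
  have hline := line_shape hT hFT x c hG.1 hcF
  rw [h0, mul_zero, Polynomial.C_0, zero_mul, add_zero] at hline
  have h1 := tan (n + 1) 3 F hF (by norm_num) hsm M x c _ hxc hG.1 hG.2 hline
  exact (Nat.not_even_iff_odd.2 hodd) (even_iff_two_dvd.2 h1)

/-- the subspace spanned by `l` contains no generic points, and the chords through its points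
preserve the parity -/
structure Cl {n P : ℕ} (F : MvPolynomial (Fin (n + 2)) ℂ) {M : Type} [Field M] [Algebra ℂ M]
    (l : Fin P → Fin (n + 2) → M) : Prop where
  ng : ∀ θ : Fin P → M, ¬ Gp F (lam l θ)
  ch : ∀ x : Fin (n + 2) → M, Gp F x → Odd (finrank (ratioField x) M) → ∀ (s : M), s ≠ 0 →
    ∀ θ : Fin P → M, aeval (fun a => s * x a + lam l θ a) F = 0 →
    Gp F (fun a => s * x a + lam l θ a) ∧
      Odd (finrank (ratioField fun a => s * x a + lam l θ a) M)

/-- **Anisotropy of the linear sections through an odd point and a slowly moving linear subspace of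
the hypersurface.** -/
theorem anisoP {n P : ℕ} {F : MvPolynomial (Fin (n + 2)) ℂ}
    (hF : F.IsHomogeneous 3) (hsm : Sm F) {T : Fin (n + 2) → Fin (n + 2) → Fin (n + 2) → ℂ}
    (hT : SymG T) (hFT : F = Bg T X X X) {M : Type} [Field M] [Algebra ℂ M]
    (x : Fin (n + 2) → M) (hG : Gp F x) (hodd : Odd (finrank (ratioField x) M))
    (l : Fin P → Fin (n + 2) → M) (hcl : Cl F l) (hli : LinearIndependent M l)
    (hiso : ∀ i j k, Bg T (l i) (l j) (l k) = 0) (v : Fin (n + 2) → M)
    (hv : ∀ (b : M) (θ : Fin P → M), v ≠ fun a => b * x a + lam l θ a)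
    (u : Option (Fin P) → Polynomial M)
    (hu : ∑ i, ∑ j, Gm T (fun i a => Polynomial.C (l i a))
      (fun a => Polynomial.C (x a) + Polynomial.X * Polynomial.C (v a)) i j * u i * u j = 0) :
    u = 0 := by
  classical
  have hev : ∀ {R : Type} [CommRing R] [Algebra ℂ R] (v : Fin (n + 2) → R),
      aeval v F = Bg T v v v := by
    intro R _ _ v
    conv_lhs => rw [hFT]
    exact aeval_frmG T v
  have hM0 : CharZero M := charZero_of_injective_algebraMap (algebraMap ℂ M).injective
  set l' : Fin P → Fin (n + 2) → Polynomial M := fun i a => Polynomial.C (l i a) with hl'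
  set W : Fin (n + 2) → Polynomial M := fun a =>
    Polynomial.C (x a) + Polynomial.X * Polynomial.C (v a) with hW
  have hWd : ∀ a, (W a).natDegree ≤ 1 := by
    intro a
    rw [hW]
    refine Polynomial.natDegree_add_le_of_degree_le (by rw [Polynomial.natDegree_C]; omega) ?_
    rw [mul_comm]
    exact (Polynomial.natDegree_C_mul_le _ _).trans Polynomial.natDegree_X_le
  have hld : ∀ i a, (l' i a).natDegree ≤ 0 := by
    intro i a
    rw [hl', Polynomial.natDegree_C]
  let ev : Polynomial M →ₐ[ℂ] M := (Polynomial.aeval (R := M) (0 : M)).restrictScalars ℂ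
  have hev0 : ∀ p : Polynomial M, ev p = p.coeff 0 := by
    intro p
    rw [AlgHom.restrictScalars_apply, Polynomial.coe_aeval_eq_eval,
      Polynomial.coeff_zero_eq_eval_zero]
  have hevl : (fun i a => ev (l' i a)) = l := by
    funext i a
    rw [hev0, hl']
    exact Polynomial.coeff_C_zero
  have hevW : (fun a => ev (W a)) = x := by
    funext a
    rw [hev0, hW]
    simp
  let Cm : M →ₐ[ℂ] Polynomial M := IsScalarTower.toAlgHom ℂ M (Polynomial M)
  have hCm : ∀ a, Cm a = Polynomial.C a := fun _ => rfl
  have hiso' : ∀ i j k, Bg T (l' i) (l' j) (l' k) = 0 := by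
    intro i j k
    have h1 : Bg T (l' i) (l' j) (l' k) = Cm (Bg T (l i) (l j) (l k)) := (map_Bg Cm T _ _ _).symm
    rw [h1, hiso, map_zero]
  have hlmr : ∀ θ : Fin P → M, lmr l θ = lam l θ := fun _ => rfl
  have key : ∀ (e : ℕ) (u : Option (Fin P) → Polynomial M), Dw e u →
      bq (Gm T l' W) u u = 0 → u = 0 := by
    refine aniso (Gm T l' W) (fun i j => Gm_symm hT _ _ _ _) ?_ ?_ ?_
    · intro i j
      rcases i with _ | i <;> rcases j with _ | j <;> simp only [Gm, wt]
      · have := Bg_natDegree T hWd hWd hWd
        have := two_natDegree 2 (Bg T W W W) (Polynomial.natDegree_ofNat 2)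
        omega
      · have := Bg_natDegree T (hld j) hWd hWd
        have := two_natDegree 3 (Bg T (l' j) W W) (Polynomial.natDegree_ofNat 3)
        omega
      · have := Bg_natDegree T (hld i) hWd hWd
        have := two_natDegree 3 (Bg T (l' i) W W) (Polynomial.natDegree_ofNat 3)
        omega
      · have := Bg_natDegree T (hld i) (hld j) hWd
        have := two_natDegree 6 (Bg T (l' i) (l' j) W) (Polynomial.natDegree_ofNat 6)
        omega
    · intro w hw0 hw
      have h1 : ∀ i j, (Gm T l' W i j).coeff 0 = Gm T l x i j := by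
        intro i j
        rw [← hev0, Gm_map, hevl, hevW]
      simp only [h1] at hw
      rw [Gm_sum hT, hw0] at hw
      have h2 : Bg T x (lam l fun i => w (some i)) (lam l fun i => w (some i)) = 0 := by
        have h3 : Bg T (lmr l fun i => w (some i)) (lmr l fun i => w (some i)) x =
            Bg T x (lam l fun i => w (some i)) (lam l fun i => w (some i)) := by
          rw [hlmr, Bg_swap23 hT, Bg_swap12 hT]
        rw [← h3]
        have h4 : (6 : M) ≠ 0 := by
          have h5 : ((6 : ℕ) : M) ≠ 0 := Nat.cast_ne_zero.2 (by norm_num)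
          exact_mod_cast h5
        have h5 : (6 : M) * Bg T (lmr l fun i => w (some i)) (lmr l fun i => w (some i)) x = 0 := by
          linear_combination hw
        exact (mul_eq_zero.1 h5).resolve_left h4
      by_cases hc0 : lam l (fun i => w (some i)) = 0
      · have h3 : ∀ i, w (some i) = 0 := by
          refine Fintype.linearIndependent_iff.1 hli _ ?_
          funext a
          have h4 := congrFun hc0 a
          simp only [lam, Pi.zero_apply] at h4
          simp only [Finset.sum_apply, Pi.smul_apply, smul_eq_mul, Pi.zero_apply]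
          exact h4
        funext i
        rcases i with _ | i
        · exact hw0
        · exact h3 i
      · exfalso
        refine tan_law hF hsm hT hFT x hG hodd _ (indep_of_not_gp hF x _ hG hc0
          (hcl.ng _)) ?_ h2
        rw [hev]
        exact iso_lam hT hiso _ _ _
    · intro w hw hwn hq
      -- a line through an odd point
      have hwn' : w none = Polynomial.C ((w none).coeff 0) := by
        rcases hw none with h | h
        · rw [h, Polynomial.coeff_zero, Polynomial.C_0]
        · refine Polynomial.eq_C_of_natDegree_le_zero ?_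
          simp only [wt] at h
          omega
      have hws : ∀ i, w (some i) = Polynomial.C ((w (some i)).coeff 0) +
          Polynomial.X * Polynomial.C ((w (some i)).coeff 1) := by
        intro i
        rcases hw (some i) with h | h
        · rw [h]
          simp
        · simp only [wt, add_zero] at h
          have h1 := Polynomial.eq_X_add_C_of_natDegree_le_one h
          conv_lhs => rw [h1]
          ring
      set d0 := (w none).coeff 0 with hd0
      set α : Fin P → M := fun i => (w (some i)).coeff 0 with hα
      set β : Fin P → M := fun i => (w (some i)).coeff 1 with hβ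
      have hcub := Gm_cubic hT hiso' W w
      unfold bq at hq
      rw [hq, mul_zero] at hcub
      have h2 : (2 : Polynomial M) ≠ 0 := by
        have h5 : ((2 : ℕ) : Polynomial M) ≠ 0 := Nat.cast_ne_zero.2 (by norm_num)
        exact_mod_cast h5
      have hcub2 := (mul_eq_zero.1 hcub).resolve_left h2
      set p0 : Fin (n + 2) → M := fun a => d0 * x a + lam l α a with hp0
      set p1 : Fin (n + 2) → M := fun a => d0 * v a + lam l β a with hp1
      have hpt : (fun a => w none * W a + lmr l' (fun i => w (some i)) a) =
          fun a => Polynomial.C (p0 a) + Polynomial.X * Polynomial.C (p1 a) := by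
        funext a
        have h3 : lmr l' (fun i => w (some i)) a = Polynomial.C (lam l α a) +
            Polynomial.X * Polynomial.C (lam l β a) := by
          simp only [lmr, lam, map_sum, Finset.mul_sum]
          rw [← Finset.sum_add_distrib]
          refine Finset.sum_congr rfl fun i _ => ?_
          rw [hws i, hl']
          simp only [Polynomial.C_mul]
          ring
        rw [h3, hwn', hW, hp0, hp1]
        simp only [Polynomial.C_mul, Polynomial.C_add]
        ring
      rw [hpt] at hcub2
      have hp0F : aeval p0 F = 0 := by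
        have h3 := congrArg ev hcub2
        rw [map_zero, map_Bg] at h3
        rw [hev]
        have h4 : (fun a => ev (Polynomial.C (p0 a) + Polynomial.X * Polynomial.C (p1 a))) = p0 := by
          funext a
          rw [hev0]
          simp
        rw [h4] at h3
        exact h3
      obtain ⟨hg0, ho0⟩ := hcl.ch x hG hodd d0 hwn α hp0F
      have hli2 : LinearIndependent M ![p0, p1] := by
        rw [LinearIndependent.pair_iff]
        intro r s hrs
        have hs : s = 0 := by
          by_contra hs
          refine hv (-(r / s)) (fun i => (-(r / s) * α i - β i) / d0) ?_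
          funext a
          have h3 := congrFun hrs a
          simp only [Pi.add_apply, Pi.smul_apply, smul_eq_mul, Pi.zero_apply, hp0, hp1] at h3
          have h4 : lam l (fun i => (-(r / s) * α i - β i) / d0) a =
              (-(r / s) * lam l α a - lam l β a) / d0 := by
            simp only [lam]
            rw [Finset.mul_sum, ← Finset.sum_sub_distrib, Finset.sum_div]
            exact Finset.sum_congr rfl fun i _ => by ring
          rw [h4]
          field_simp
          linear_combination h3
        refine ⟨?_, hs⟩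
        by_contra hr
        have h3 : p0 = 0 := by
          funext a
          have h4 := congrFun hrs a
          simp only [Pi.add_apply, Pi.smul_apply, smul_eq_mul, Pi.zero_apply, hs, zero_mul,
            add_zero] at h4
          exact (mul_eq_zero.1 h4).resolve_left hr
        exact coord_ne_zero hF (by norm_num) p0 hg0.2 0 (by rw [h3]; rfl)
      have tan : S_TAN := tan_of div (nt Pool.Agent.Y201.LI.hT1) fi fd
      have h5 := tan (n + 1) 3 F hF (by norm_num) hsm M p0 p1 0 hli2 hg0.1 hg0.2 (by
        rw [Polynomial.C_0, zero_mul, hev]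
        exact hcub2)
      exact (Nat.not_even_iff_odd.2 ho0) (even_iff_two_dvd.2 h5)
  refine key (Finset.univ.sup (fun i => (u i).natDegree) + 1) u ?_ hu
  intro i
  right
  have h1 : (u i).natDegree ≤ Finset.univ.sup (fun i => (u i).natDegree) :=
    Finset.le_sup (f := fun i => (u i).natDegree) (Finset.mem_univ i)
  have h2 : wt i ≤ 1 := by
    rcases i with _ | i <;> simp [wt]
  omega

end

end Pool.Agent.Helper50.CM
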