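import Mathlib
import Pool.Agent.Helper50.CM.C

/-! # Sections of odd degree and odd families of curves -/

set_option autoImplicit false

namespace Pool.Agent.Helper50.CM

open MvPolynomial Pool.Agent.TH314.PD Module FF Pool.Agent.Y201.C3 IntermediateField
open Pool.Agent.R845.T2 Pool.Agent.R845.E3 Pool.Agent.N122

noncomputable section

/-- polarization -/
theorem iso_of_van {N : ℕ} {T : Fin N → Fin N → Fin N → ℂ} (hT : SymG T) {M : Type} [Field M]
    [Algebra ℂ M] (Λ : Submodule M (Fin N → M)) (h : ∀ c ∈ Λ, Bg T c c c = 0)
    (a b c : Fin N → M) (ha : a ∈ Λ) (hb : b ∈ Λ) (hc : c ∈ Λ) : Bg T a b c = 0 := by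
  have hM0 : CharZero M := charZero_of_injective_algebraMap (algebraMap ℂ M).injective
  have h6 : (6 : M) ≠ 0 := by
    have h5 : ((6 : ℕ) : M) ≠ 0 := Nat.cast_ne_zero.2 (by norm_num)
    exact_mod_cast h5
  have key : ∀ A B C : M, Bg T (fun i => A * a i + B * b i + C * c i)
      (fun i => A * a i + B * b i + C * c i) (fun i => A * a i + B * b i + C * c i) = 0 := by
    intro A B C
    refine h _ ?_
    have h1 : (fun i => A * a i + B * b i + C * c i) = A • a + B • b + C • c := by
      funext i
      simp [smul_eq_mul]
    rw [h1]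
    exact Λ.add_mem (Λ.add_mem (Λ.smul_mem _ ha) (Λ.smul_mem _ hb)) (Λ.smul_mem _ hc)
  have e1 := key 1 1 1
  have e2 := key 1 1 0
  have e3 := key 1 0 1
  have e4 := key 0 1 1
  have e5 := key 1 0 0
  have e6 := key 0 1 0
  have e7 := key 0 0 1
  rw [Bg_span3 hT] at e1 e2 e3 e4 e5 e6 e7
  refine (mul_eq_zero.1 (?_ : (6 : M) * Bg T a b c = 0)).resolve_left h6
  linear_combination e1 - e2 - e3 - e4 + e5 + e6 + e7

/-- the index equivalence -/
def eqv (P : ℕ) : Fin (P + 1) ≃ Option (Fin P) := (finSuccEquiv P)

/-- **The theorem of Springer for the quadratic forms of the linear sections.** -/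
theorem springerO {P : ℕ} {K : Type} [Field K] [CharZero K] {R : Type} [CommRing R] [Algebra K R]
    {M : Type} [Field M] [Algebra K M] (ψ : R →ₐ[K] M) (hinj : Function.Injective ψ)
    (hodd : Odd (Module.finrank (IntermediateField.adjoin K (Set.range ψ)) M))
    (Q : Option (Fin P) → Option (Fin P) → R) (w : Option (Fin P) → M) (hw : ∃ i, w i ≠ 0)
    (h : ∑ i, ∑ j, ψ (Q i j) * w i * w j = 0) :
    ∃ r : Option (Fin P) → R, r ≠ 0 ∧ ∑ i, ∑ j, Q i j * r i * r j = 0 := by
  have h1 : ∑ i, ∑ j, ψ (Q (eqv P i) (eqv P j)) * w (eqv P i) * w (eqv P j) = 0 := by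
    rw [← h, ← (eqv P).sum_comp (fun i => ∑ j, ψ (Q i j) * w i * w j)]
    refine Finset.sum_congr rfl fun i _ => ?_
    exact (eqv P).sum_comp (fun j => ψ (Q (eqv P i) j) * w (eqv P i) * w j)
  obtain ⟨i0, hi0⟩ := hw
  obtain ⟨r, ⟨i1, hi1⟩, hr⟩ := odd_descentK ψ hodd (fun i j => Q (eqv P i) (eqv P j))
    (fun i => w (eqv P i)) ⟨(eqv P).symm i0, by simpa using hi0⟩ h1
  have hr2 := hinj (hr.trans (map_zero _).symm)
  refine ⟨fun i => r ((eqv P).symm i), ?_, ?_⟩
  · intro h0
    apply hi1
    have h2 := congrFun h0 (eqv P i1)
    simp only [Equiv.symm_apply_apply, Pi.zero_apply] at h2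
    rw [h2, map_zero]
  · rw [← hr2, ← (eqv P).sum_comp (fun i => ∑ j, Q i j * r ((eqv P).symm i) * r ((eqv P).symm j))]
    refine Finset.sum_congr rfl fun i _ => ?_
    rw [← (eqv P).sum_comp (fun j => Q (eqv P i) j * r ((eqv P).symm (eqv P i)) *
      r ((eqv P).symm j))]
    refine Finset.sum_congr rfl fun j _ => ?_
    simp only [Equiv.symm_apply_apply]

theorem adjoin_range_aeval {K M : Type} [Field K] [Field M] [Algebra K M] (t : M) :
    IntermediateField.adjoin K (Set.range (Polynomial.aeval t : Polynomial K →ₐ[K] M)) =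
      IntermediateField.adjoin K {t} := by
  apply le_antisymm
  · rw [IntermediateField.adjoin_le_iff]
    rintro _ ⟨p, rfl⟩
    have h1 : Polynomial.aeval t p ∈ Algebra.adjoin K {t} := Polynomial.aeval_mem_adjoin_singleton K t
    exact IntermediateField.algebra_adjoin_le_adjoin K {t} h1
  · apply IntermediateField.adjoin.mono
    rintro _ rfl
    exact ⟨Polynomial.X, Polynomial.aeval_X _⟩

/-- **No sections of odd degree.** -/
theorem secP {n P : ℕ} {F : MvPolynomial (Fin (n + 2)) ℂ}
    (hF : F.IsHomogeneous 3) (hsm : Sm F) {T : Fin (n + 2) → Fin (n + 2) → Fin (n + 2) → ℂ}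
    (hT : SymG T) (hFT : F = Bg T X X X) {M : Type} [Field M] [Algebra ℂ M]
    (x : Fin (n + 2) → M) (hG : Gp F x) (hodd : Odd (finrank (ratioField x) M))
    (l : Fin P → Fin (n + 2) → M) (hcl : Cl F l) (hli : LinearIndependent M l)
    (hiso : ∀ i j k, Bg T (l i) (l j) (l k) = 0) (v : Fin (n + 2) → M)
    (hv : ∀ (b : M) (θ : Fin P → M), v ≠ fun a => b * x a + lam l θ a)
    (N : Type) [Field N] [Algebra ℂ N] [Algebra M N] [IsScalarTower ℂ M N] (τ : N)
    (hτ : Transcendental M τ) (hN : Odd (finrank (IntermediateField.adjoin M {τ}) N))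
    (s : N) (θ : Fin P → N)
    (hst : aeval (fun a => s * (algebraMap M N (x a) + τ * algebraMap M N (v a)) +
      ∑ i, θ i * algebraMap M N (l i a)) F = 0) : s = 0 := by
  classical
  by_contra hs
  have hM0 : CharZero M := charZero_of_injective_algebraMap (algebraMap ℂ M).injective
  have hN0 : CharZero N := charZero_of_injective_algebraMap (algebraMap ℂ N).injective
  have hev : ∀ {R : Type} [CommRing R] [Algebra ℂ R] (v : Fin (n + 2) → R),
      aeval v F = Bg T v v v := by
    intro R _ _ v
    conv_lhs => rw [hFT]
    exact aeval_frmG T v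
  let g : M →ₐ[ℂ] N := IsScalarTower.toAlgHom ℂ M N
  have hg : ∀ a, g a = algebraMap M N a := fun _ => rfl
  let L : Fin P → Fin (n + 2) → N := fun i a => g (l i a)
  let W : Fin (n + 2) → N := fun a => g (x a) + τ * g (v a)
  have hisoN : ∀ i j k, Bg T (L i) (L j) (L k) = 0 := by
    intro i j k
    have h1 : Bg T (L i) (L j) (L k) = g (Bg T (l i) (l j) (l k)) := (map_Bg g T _ _ _).symm
    rw [h1, hiso, map_zero]
  let w : Option (Fin P) → N := fun i => i.elim s θ
  have h1 := Gm_cubic hT hisoN W w
  have h2 : (fun a => w none * W a + lmr L (fun i => w (some i)) a) =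
      fun a => s * (algebraMap M N (x a) + τ * algebraMap M N (v a)) +
      ∑ i, θ i * algebraMap M N (l i a) := rfl
  rw [h2, ← hev, hst, mul_zero] at h1
  have h3 := (mul_eq_zero.1 h1.symm).resolve_left hs
  -- the specialization
  let ψ : Polynomial M →ₐ[M] N := Polynomial.aeval τ
  have hinj : Function.Injective ψ := transcendental_iff_injective.1 hτ
  let ψ' : Polynomial M →ₐ[ℂ] N := ψ.restrictScalars ℂ
  let l' : Fin P → Fin (n + 2) → Polynomial M := fun i a => Polynomial.C (l i a)
  let W' : Fin (n + 2) → Polynomial M := fun a =>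
    Polynomial.C (x a) + Polynomial.X * Polynomial.C (v a)
  have hψl : (fun i a => ψ' (l' i a)) = L := by
    funext i a
    exact Polynomial.aeval_C _ _
  have hψW : (fun a => ψ' (W' a)) = W := by
    funext a
    change ψ (Polynomial.C (x a) + Polynomial.X * Polynomial.C (v a)) = _
    rw [map_add, map_mul]
    simp only [ψ, Polynomial.aeval_C, Polynomial.aeval_X]
    rfl
  have h4 : ∀ i j, ψ (Gm T l' W' i j) = Gm T L W i j := by
    intro i j
    have h5 := Gm_map (T := T) ψ' l' W' i j
    rw [hψl, hψW] at h5
    exact h5
  obtain ⟨r, hr0, hr⟩ := springerO ψ hinj (by rw [adjoin_range_aeval]; exact hN) (Gm T l' W') w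
    ⟨none, hs⟩ (by simp only [h4]; exact h3)
  exact hr0 (anisoP hF hsm hT hFT x hG hodd l hcl hli hiso v hv r hr)

/-- **No odd families of curves which are mapped to lines.** -/
theorem famP {n P : ℕ} {F : MvPolynomial (Fin (n + 2)) ℂ}
    (hF : F.IsHomogeneous 3) (hsm : Sm F) {T : Fin (n + 2) → Fin (n + 2) → Fin (n + 2) → ℂ}
    (hT : SymG T) (hFT : F = Bg T X X X) {M : Type} [Field M] [Algebra ℂ M]
    (x : Fin (n + 2) → M) (hG : Gp F x) (hodd : Odd (finrank (ratioField x) M))
    (l : Fin P → Fin (n + 2) → M) (hcl : Cl F l) (hli : LinearIndependent M l)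
    (hiso : ∀ i j k, Bg T (l i) (l j) (l k) = 0)
    (L : IntermediateField ℂ M) (hlL : ∀ i a, l i a ∈ L) (t : M) (ht : Transcendental L t)
    (hL : Odd (finrank (IntermediateField.adjoin L {t}) M))
    (u v : Fin (n + 2) → M) (hu : ∀ a, u a ∈ L) (hv : ∀ a, v a ∈ L) (s : M) (θ : Fin P → M)
    (hx : ∀ a, x a = s * (u a + t * v a) + lam l θ a) : False := by
  classical
  have hM0 : CharZero M := charZero_of_injective_algebraMap (algebraMap ℂ M).injective
  have hL0 : CharZero L := charZero_of_injective_algebraMap (algebraMap ℂ L).injective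
  have hev : ∀ {R : Type} [CommRing R] [Algebra ℂ R] (v : Fin (n + 2) → R),
      aeval v F = Bg T v v v := by
    intro R _ _ v
    conv_lhs => rw [hFT]
    exact aeval_frmG T v
  have hs : s ≠ 0 := by
    intro h0
    apply hcl.ng θ
    have h1 : x = lam l θ := by
      funext a
      rw [hx, h0, zero_mul, zero_add]
    rw [← h1]
    exact hG
  let uL : Fin (n + 2) → L := fun a => ⟨u a, hu a⟩
  let vL : Fin (n + 2) → L := fun a => ⟨v a, hv a⟩
  let lL : Fin P → Fin (n + 2) → L := fun i a => ⟨l i a, hlL i a⟩
  let ψ : Polynomial L →ₐ[L] M := Polynomial.aeval t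
  have hinj : Function.Injective ψ := transcendental_iff_injective.1 ht
  have hodd' : Odd (Module.finrank (IntermediateField.adjoin L (Set.range ψ)) M) := by
    rw [adjoin_range_aeval]
    exact hL
  let ψ' : Polynomial L →ₐ[ℂ] M := ψ.restrictScalars ℂ
  let l' : Fin P → Fin (n + 2) → Polynomial L := fun i a => Polynomial.C (lL i a)
  have hψC : ∀ b : L, ψ (Polynomial.C b) = (b : M) := fun b => Polynomial.aeval_C _ _
  have hψl : (fun i a => ψ' (l' i a)) = l := by
    funext i a
    exact hψC _
  by_cases hcase : ∃ (b : M) (θ' : Fin P → M), v = fun a => b * x a + lam l θ' a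
  · -- the projection of the family is constant
    obtain ⟨b, θ', hv'⟩ := hcase
    -- a vector over `L` in the span
    obtain ⟨W0, s', θ'', hs', hW0⟩ : ∃ (W0 : Fin (n + 2) → L) (s' : M) (θ'' : Fin P → M), s' ≠ 0 ∧
        ∀ a, x a = s' * (W0 a : M) + lam l θ'' a := by
      by_cases hb : b = 0
      · -- `v` lies in the linear subspace
        refine ⟨uL, s, fun i => s * t * θ' i + θ i, hs, fun a => ?_⟩
        have h1 := congrFun hv' a
        simp only [hb, zero_mul, zero_add] at h1
        have h2 : lam l (fun i => s * t * θ' i + θ i) a = s * t * lam l θ' a + lam l θ a := by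
          simp only [lam]
          rw [Finset.mul_sum, ← Finset.sum_add_distrib]
          exact Finset.sum_congr rfl fun i _ => by ring
        rw [h2, hx a, h1]
        simp only [uL]
        ring
      · refine ⟨vL, 1 / b, fun i => -(1 / b) * θ' i, one_div_ne_zero hb, fun a => ?_⟩
        have h1 := congrFun hv' a
        have h2 : lam l (fun i => -(1 / b) * θ' i) a = -(1 / b) * lam l θ' a := by
          simp only [lam]
          rw [Finset.mul_sum]
          exact Finset.sum_congr rfl fun i _ => by ring
        rw [h2]
        simp only [vL]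
        rw [h1]
        field_simp
        ring
    -- the form over `L`
    let Q : Option (Fin P) → Option (Fin P) → L := Gm T lL W0
    have hQM : ∀ i j, ((Q i j : L) : M) = Gm T l (fun a => (W0 a : M)) i j := by
      intro i j
      exact Gm_map L.val lL W0 i j
    let w : Option (Fin P) → M := fun i => i.elim s' θ''
    have h1 := Gm_cubic hT hiso (fun a => (W0 a : M)) w
    have h2 : (fun a => w none * (W0 a : M) + lmr l (fun i => w (some i)) a) = x := by
      funext a
      rw [hW0 a]
      rfl
    rw [h2, ← hev, hG.1, mul_zero] at h1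
    have h3 := (mul_eq_zero.1 h1.symm).resolve_left hs'
    obtain ⟨r, hr0, hr⟩ := springerO ψ hinj hodd' (fun i j => Polynomial.C (Q i j)) w
      ⟨none, hs'⟩ (by
        simp only [hψC, hQM]
        exact h3)
    -- the leading coefficients
    set D := Finset.univ.sup (fun i => (r i).natDegree) with hD
    have hrD : ∀ i, (r i).natDegree ≤ D := fun i =>
      Finset.le_sup (f := fun i => (r i).natDegree) (Finset.mem_univ i)
    let w1 : Option (Fin P) → L := fun i => (r i).coeff D
    have hw1 : w1 ≠ 0 := by
      intro h0
      obtain ⟨i0, hi0⟩ := Function.ne_iff.1 hr0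
      -- the maximum is attained
      obtain ⟨i1, -, hi1⟩ := Finset.exists_mem_eq_sup Finset.univ ⟨none, Finset.mem_univ _⟩
        (fun i => (r i).natDegree)
      have h4 := congrFun h0 i1
      simp only [w1, Pi.zero_apply] at h4
      rw [← hD] at hi1
      rw [hi1] at h4
      have h5 : r i1 = 0 := Polynomial.leadingCoeff_eq_zero.1 h4
      have h6 : D = 0 := by rw [hi1, h5, Polynomial.natDegree_zero]
      apply hi0
      have h7 := Polynomial.eq_C_of_natDegree_le_zero ((hrD i0).trans h6.le)
      have h8 := congrFun h0 i0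
      simp only [w1, Pi.zero_apply, h6] at h8
      rw [h7, h8, Polynomial.C_0]
      rfl
    have hQ1 : ∑ i, ∑ j, Q i j * w1 i * w1 j = 0 := by
      have h4 := congrArg (fun p => Polynomial.coeff p (D + D)) hr
      simp only [Polynomial.finsetSum_coeff, Polynomial.coeff_zero] at h4
      rw [← h4]
      refine Finset.sum_congr rfl fun i _ => Finset.sum_congr rfl fun j _ => ?_
      rw [mul_assoc, mul_assoc, Polynomial.coeff_C_mul,
        Polynomial.coeff_mul_add_eq_of_natDegree_le (hrD i) (hrD j)]
    -- the point over `L`
    have hQ2 : ∑ i, ∑ j, Gm T l (fun a => (W0 a : M)) i j * (w1 i : M) * (w1 j : M) = 0 := by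
      have h4 := congrArg (Subtype.val : L → M) hQ1
      push_cast at h4
      simp only [hQM] at h4
      exact h4
    by_cases hd : w1 none = 0
    · -- contradiction with the tangent law
      have h5 := Gm_sum hT l (fun a => (W0 a : M)) (fun i => (w1 i : M))
      rw [hQ2, hd] at h5
      have h6 : (6 : M) ≠ 0 := by
        have h5 : ((6 : ℕ) : M) ≠ 0 := Nat.cast_ne_zero.2 (by norm_num)
        exact_mod_cast h5
      have hcast : ((0 : L) : M) = 0 := rfl
      rw [hcast] at h5
      have h7 : Bg T (lmr l fun i => (w1 (some i) : M)) (lmr l fun i => (w1 (some i) : M))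
          (fun a => (W0 a : M)) = 0 := by
        have h8 : (6 : M) * Bg T (lmr l fun i => (w1 (some i) : M))
          (lmr l fun i => (w1 (some i) : M)) (fun a => (W0 a : M)) = 0 := by
          linear_combination -h5
        exact (mul_eq_zero.1 h8).resolve_left h6
      set c : Fin (n + 2) → M := lam l fun i => (w1 (some i) : M) with hc
      have hc0 : c ≠ 0 := by
        intro h0
        apply hw1
        have h3 : ∀ i, (w1 (some i) : M) = 0 := by
          refine Fintype.linearIndependent_iff.1 hli _ ?_
          funext a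
          have h4 := congrFun h0 a
          simp only [hc, lam, Pi.zero_apply] at h4
          simp only [Finset.sum_apply, Pi.smul_apply, smul_eq_mul, Pi.zero_apply]
          exact h4
        funext i
        rcases i with _ | i
        · exact hd
        · exact Subtype.ext (h3 i)
      refine tan_law hF hsm hT hFT x hG hodd c (indep_of_not_gp hF x _ hG hc0
        (hcl.ng _)) ?_ ?_
      · rw [hev]
        exact iso_lam hT hiso _ _ _
      · have h8 : x = fun a => s' * (W0 a : M) + lam l θ'' a := funext hW0
        rw [h8, Bg_add1, Bg_smul1]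
        have h9 : Bg T (fun i => lam l θ'' i) c c = 0 := iso_lam hT hiso _ _ _
        have h10 : Bg T (fun i => (W0 i : M)) c c = 0 := by
          rw [Bg_swap12 hT, Bg_swap23 hT]
          exact h7
        rw [h9, h10]
        ring
    · -- an odd point over `L`
      have hdM : ((w1 none : L) : M) ≠ 0 := fun h => hd (Subtype.ext h)
      set y : Fin (n + 2) → M := fun a => (w1 none : M) * (W0 a : M) +
        lam l (fun i => (w1 (some i) : M)) a with hy
      have hyF : aeval y F = 0 := by
        have h5 := Gm_cubic hT hiso (fun a => (W0 a : M)) (fun i => (w1 i : M))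
        rw [hQ2, mul_zero] at h5
        have h2 : (2 : M) ≠ 0 := two_ne_zero
        rw [hev]
        exact (mul_eq_zero.1 h5).resolve_left h2
      have hy2 : y = fun a => ((w1 none : M) / s') * x a +
          lam l (fun i => (w1 (some i) : M) - (w1 none : M) / s' * θ'' i) a := by
        funext a
        have h5 : lam l (fun i => (w1 (some i) : M) - (w1 none : M) / s' * θ'' i) a =
            lam l (fun i => (w1 (some i) : M)) a - (w1 none : M) / s' * lam l θ'' a := by
          simp only [lam]
          rw [Finset.mul_sum, ← Finset.sum_sub_distrib]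
          exact Finset.sum_congr rfl fun i _ => by ring
        rw [h5, hy, hW0 a]
        field_simp
        ring
      rw [hy2] at hyF
      obtain ⟨hyG, hyo⟩ := hcl.ch x hG hodd _
        (div_ne_zero hdM hs') _ hyF
      rw [← hy2] at hyo
      -- the field of the point is contained in `L`
      have hyL : ∀ a, y a ∈ L := by
        intro a
        refine add_mem (mul_mem (w1 none).2 (W0 a).2) (sum_mem fun i _ => ?_)
        exact mul_mem (w1 (some i)).2 (hlL i a)
      have hrL : ratioField y ≤ L := by
        unfold ratioField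
        rw [IntermediateField.adjoin_le_iff]
        rintro _ ⟨i, j, rfl⟩
        exact div_mem (hyL i) (hyL j)
      have hfin : FiniteDimensional (ratioField y) M := FiniteDimensional.of_finrank_pos hyo.pos
      have halg : IsAlgebraic (ratioField y) t := Algebra.IsAlgebraic.isAlgebraic t
      apply ht
      obtain ⟨p, hp0, hp⟩ := halg
      refine ⟨p.map (IntermediateField.inclusion hrL).toRingHom, ?_, ?_⟩
      · rw [Ne, Polynomial.map_eq_zero]
        exact hp0
      · rw [Polynomial.aeval_def, Polynomial.eval₂_map]
        exact hp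
  · push Not at hcase
    -- the form over the polynomial ring
    let W' : Fin (n + 2) → Polynomial L := fun a =>
      Polynomial.C (uL a) + Polynomial.X * Polynomial.C (vL a)
    have hψW : (fun a => ψ' (W' a)) = fun a => u a + t * v a := by
      funext a
      change ψ (Polynomial.C (uL a) + Polynomial.X * Polynomial.C (vL a)) = _
      rw [map_add, map_mul, hψC, hψC]
      simp only [ψ, Polynomial.aeval_X]
      rfl
    let w : Option (Fin P) → M := fun i => i.elim s θ
    have h1 := Gm_cubic hT hiso (fun a => u a + t * v a) w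
    have h2 : (fun a => w none * (u a + t * v a) + lmr l (fun i => w (some i)) a) = x := by
      funext a
      rw [hx a]
      rfl
    rw [h2, ← hev, hG.1, mul_zero] at h1
    have h3 := (mul_eq_zero.1 h1.symm).resolve_left hs
    have h4 : ∀ i j, ψ (Gm T l' W' i j) = Gm T l (fun a => u a + t * v a) i j := by
      intro i j
      have h5 := Gm_map (T := T) ψ' l' W' i j
      rw [hψl, hψW] at h5
      exact h5
    obtain ⟨r, hr0, hr⟩ := springerO ψ hinj hodd' (Gm T l' W') w
      ⟨none, hs⟩ (by simp only [h4]; exact h3)
    -- the translation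
    let φ : Polynomial L →ₐ[L] Polynomial M := Polynomial.aeval (Polynomial.X + Polynomial.C t)
    have hφt : ∀ p, φ p = Polynomial.taylor t (p.map (algebraMap L M)) := by
      intro p
      rw [Polynomial.taylor_apply, Polynomial.comp, Polynomial.eval₂_map]
      rfl
    have hφinj : Function.Injective φ := by
      intro p q hpq
      rw [hφt, hφt] at hpq
      exact Polynomial.map_injective _ (algebraMap L M).injective
        (Polynomial.taylor_injective t hpq)
    let φ' : Polynomial L →ₐ[ℂ] Polynomial M := φ.restrictScalars ℂ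
    have hφC : ∀ b : L, φ (Polynomial.C b) = Polynomial.C (b : M) := fun b =>
      Polynomial.aeval_C _ _
    let l'' : Fin P → Fin (n + 2) → Polynomial M := fun i a => Polynomial.C (l i a)
    let W1 : Fin (n + 2) → Polynomial M := fun a =>
      Polynomial.C (u a + t * v a) + Polynomial.X * Polynomial.C (v a)
    have hφl : (fun i a => φ' (l' i a)) = l'' := by
      funext i a
      exact hφC _
    have hφW : (fun a => φ' (W' a)) = W1 := by
      funext a
      change φ (Polynomial.C (uL a) + Polynomial.X * Polynomial.C (vL a)) = _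
      rw [map_add, map_mul, hφC, hφC]
      simp only [φ, Polynomial.aeval_X, W1, uL, vL, Polynomial.C_add, Polynomial.C_mul]
      ring
    let r1 : Option (Fin P) → Polynomial M := fun i => φ (r i)
    have hr1 : r1 ≠ 0 := by
      intro h0
      apply hr0
      funext i
      have h5 := congrFun h0 i
      exact hφinj (h5.trans (map_zero _).symm)
    have hr1q : ∑ i, ∑ j, Gm T l'' W1 i j * r1 i * r1 j = 0 := by
      have h5 := congrArg φ' hr
      rw [map_zero, map_sum] at h5
      rw [← h5]
      refine Finset.sum_congr rfl fun i _ => ?_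
      rw [map_sum]
      refine Finset.sum_congr rfl fun j _ => ?_
      rw [map_mul, map_mul, Gm_map (T := T) φ' l' W' i j, hφl, hφW]
      rfl
    -- the shift
    have hiso' : ∀ i j k, Bg T (l'' i) (l'' j) (l'' k) = 0 := by
      intro i j k
      have h1 : Bg T (l'' i) (l'' j) (l'' k) =
        (IsScalarTower.toAlgHom ℂ M (Polynomial M)) (Bg T (l i) (l j) (l k)) :=
        (map_Bg (IsScalarTower.toAlgHom ℂ M (Polynomial M)) T _ _ _).symm
      rw [h1, hiso, map_zero]
    let W2 : Fin (n + 2) → Polynomial M := fun a =>
      Polynomial.C (x a) + Polynomial.X * Polynomial.C (s * v a)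
    have hlmθ : ∀ a, lmr l'' (fun i => Polynomial.C (θ i)) a = Polynomial.C (lam l θ a) := by
      intro a
      simp only [lmr, lam, map_sum, l'', Polynomial.C_mul]
    have hW2 : W2 = fun a => Polynomial.C s * W1 a + lmr l'' (fun i => Polynomial.C (θ i)) a := by
      funext a
      rw [hlmθ]
      simp only [W1, W2]
      rw [hx a]
      simp only [Polynomial.C_add, Polynomial.C_mul]
      ring
    let r2 : Option (Fin P) → Polynomial M := fun i => i.elim (Polynomial.C (1 / s) * r1 none)
      fun i => r1 (some i) - Polynomial.C (θ i / s) * r1 none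
    have hCs : Polynomial.C s * Polynomial.C (1 / s) = (1 : Polynomial M) := by
      rw [← Polynomial.C_mul, mul_one_div_cancel hs, Polynomial.C_1]
    have hr2q : ∑ i, ∑ j, Gm T l'' W2 i j * r2 i * r2 j = 0 := by
      by_cases hd : r1 none = 0
      · have h5 := Gm_sum hT l'' W1 r1
        have h6 := Gm_sum hT l'' W2 r2
        have h7 : r2 none = 0 := by
          simp only [r2, Option.elim, hd, mul_zero]
        have h8 : (fun i => r2 (some i)) = fun i => r1 (some i) := by
          funext i
          simp only [r2, Option.elim, hd, mul_zero, sub_zero]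
        rw [h7, h8, hW2] at h6
        rw [hd, hr1q] at h5
        rw [h7.symm.trans h7, hW2, h6]
        rw [Bg_add3, Bg_smul3, iso_lmr hT hiso']
        linear_combination -Polynomial.C s * h5
      · have h5 := Gm_cubic hT hiso' W1 r1
        have h6 := Gm_cubic hT hiso' W2 r2
        have h7 : (fun a => r2 none * W2 a + lmr l'' (fun i => r2 (some i)) a) =
            fun a => r1 none * W1 a + lmr l'' (fun i => r1 (some i)) a := by
          funext a
          have h8 : lmr l'' (fun i => r2 (some i)) a = lmr l'' (fun i => r1 (some i)) a -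
              Polynomial.C (1 / s) * r1 none * lmr l'' (fun i => Polynomial.C (θ i)) a := by
            simp only [lmr, r2, Option.elim]
            rw [Finset.mul_sum, ← Finset.sum_sub_distrib]
            refine Finset.sum_congr rfl fun i _ => ?_
            have h9 : θ i / s = 1 / s * θ i := by ring
            rw [h9, Polynomial.C_mul]
            ring
          rw [h8, hW2]
          simp only [r2, Option.elim]
          linear_combination r1 none * W1 a * hCs
        rw [h7, h5, hr1q, mul_zero] at h6
        have h8 : r2 none ≠ 0 := by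
          simp only [r2, Option.elim]
          exact mul_ne_zero (Polynomial.C_ne_zero.2 (one_div_ne_zero hs)) hd
        exact (mul_eq_zero.1 h6.symm).resolve_left h8
    have hr2 : r2 = 0 := by
      refine anisoP hF hsm hT hFT x hG hodd l hcl hli hiso (fun a => s * v a) ?_ r2 hr2q
      intro b θ' h0
      refine hcase (b / s) (fun i => θ' i / s) ?_
      funext a
      have h5 := congrFun h0 a
      have h6 : lam l (fun i => θ' i / s) a = lam l θ' a / s := by
        simp only [lam]
        rw [Finset.sum_div]
        exact Finset.sum_congr rfl fun i _ => by ring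
      rw [h6]
      field_simp
      linear_combination h5
    apply hr1
    have hd : r1 none = 0 := by
      have h5 := congrFun hr2 none
      simp only [r2, Option.elim, Pi.zero_apply] at h5
      exact (mul_eq_zero.1 h5).resolve_left (Polynomial.C_ne_zero.2 (one_div_ne_zero hs))
    funext i
    rcases i with _ | i
    · exact hd
    · have h5 := congrFun hr2 (some i)
      simp only [r2, Option.elim, Pi.zero_apply, hd, mul_zero, sub_zero] at h5
      exact h5

end

end Pool.Agent.Helper50.CM
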