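import Mathlib
import Pool.Agent.Helper50.CM.D

/-! # Linear subspaces as submodules -/

set_option autoImplicit false

namespace Pool.Agent.Helper50.CM

open MvPolynomial Pool.Agent.TH314.PD Module FF Pool.Agent.Y201.C3 IntermediateField
open Pool.Agent.R845.T2 Pool.Agent.R845.E3 Pool.Agent.N122

noncomputable section

/-- closure, for submodules -/
structure ClS {n : ℕ} (F : MvPolynomial (Fin (n + 2)) ℂ) {M : Type} [Field M] [Algebra ℂ M]
    (Λ : Submodule M (Fin (n + 2) → M)) : Prop where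
  ng : ∀ c ∈ Λ, ¬ Gp F c
  ch : ∀ x : Fin (n + 2) → M, Gp F x → Odd (finrank (ratioField x) M) → ∀ (s : M), s ≠ 0 →
    ∀ c ∈ Λ, aeval (fun a => s * x a + c a) F = 0 →
    Gp F (fun a => s * x a + c a) ∧
      Odd (finrank (ratioField fun a => s * x a + c a) M)

theorem lam_mem {n P : ℕ} {M : Type} [Field M] (l : Fin P → Fin n → M) (θ : Fin P → M) :
    lam l θ ∈ Submodule.span M (Set.range l) := by
  have h1 : lam l θ = ∑ i, θ i • l i := by
    funext a
    simp only [lam, Finset.sum_apply, Pi.smul_apply, smul_eq_mul]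
  rw [h1]
  exact Submodule.sum_mem _ fun i _ => Submodule.smul_mem _ _ (Submodule.subset_span ⟨i, rfl⟩)

theorem mem_span_lam {n P : ℕ} {M : Type} [Field M] (l : Fin P → Fin n → M) {c : Fin n → M}
    (hc : c ∈ Submodule.span M (Set.range l)) : ∃ θ : Fin P → M, c = lam l θ := by
  obtain ⟨θ, hθ⟩ := (Submodule.mem_span_range_iff_exists_fun M).1 hc
  refine ⟨θ, ?_⟩
  rw [← hθ]
  funext a
  simp only [lam, Finset.sum_apply, Pi.smul_apply, smul_eq_mul]

theorem ClS.cl {n P : ℕ} {F : MvPolynomial (Fin (n + 2)) ℂ} {M : Type} [Field M] [Algebra ℂ M]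
    {Λ : Submodule M (Fin (n + 2) → M)} (h : ClS F Λ) (l : Fin P → Fin (n + 2) → M)
    (hl : Submodule.span M (Set.range l) = Λ) : Cl F l where
  ng θ := h.ng _ (hl ▸ lam_mem l θ)
  ch x h1 h2 s hs θ h3 := h.ch x h1 h2 s hs _ (hl ▸ lam_mem l θ) h3

/-- slowly moving subspaces -/
theorem clS_of_gd {n m P : ℕ} (hgd : Gd (n + 2) m P) {F : MvPolynomial (Fin (n + 2)) ℂ}
    (hF : F.IsHomogeneous 3) (hsm : Sm F) {M : Type} [Field M] [Algebra ℂ M]
    (K : IntermediateField ℂ M) (hK : Algebra.trdeg ℂ K ≤ m)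
    (l : Fin P → Fin (n + 2) → M) (hl : ∀ i a, l i a ∈ K) (hli : LinearIndependent M l)
    (hΛ : ∀ c ∈ Submodule.span M (Set.range l), aeval c F = 0) :
    ClS F (Submodule.span M (Set.range l)) := by
  have hF0 : F ≠ 0 := ne_zero_of_smooth (m := n + 1) hsm
  obtain ⟨T, hT, hFT⟩ := exists_tri F hF
  have hev : ∀ {R : Type} [CommRing R] [Algebra ℂ R] (v : Fin (n + 2) → R),
      aeval v F = Bg T v v v := by
    intro R _ _ v
    conv_lhs => rw [hFT]
    exact aeval_frmG T v
  have hiso : ∀ i j k, Bg T (l i) (l j) (l k) = 0 := fun i j k =>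
    iso_of_van hT _ (fun c hc => by rw [← hev]; exact hΛ c hc) _ _ _
      (Submodule.subset_span (Set.mem_range_self i)) (Submodule.subset_span (Set.mem_range_self j))
      (Submodule.subset_span (Set.mem_range_self k))
  refine ⟨fun c hc => ?_, fun x h1 h2 s hs c hc h3 => ?_⟩
  · obtain ⟨θ, rfl⟩ := mem_span_lam l hc
    exact not_gpP (gd_le' hgd) hF hF0 K hK l hl θ
  · obtain ⟨θ, rfl⟩ := mem_span_lam l hc
    exact chordP hgd hF hsm hT hFT x h1 h2 K hK l hl hli hiso s hs θ h3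

/-- subspaces whose points lie on small subvarieties -/
theorem clS_of_small {n m : ℕ} (hn : dimBound m ≤ n) {F : MvPolynomial (Fin (n + 2)) ℂ}
    (hF : F.IsHomogeneous 3) (hsm : Sm F) {M : Type} [Field M] [Algebra ℂ M]
    (Λ : Submodule M (Fin (n + 2) → M)) (hΛ : ∀ c ∈ Λ, aeval c F = 0)
    (hsl : ∀ c ∈ Λ, ∀ y : Fin (m + 1) → M, (∀ i, y i ∈ ratioField c) →
      ¬ AlgebraicIndependent ℂ y) : ClS F Λ := by
  have hF0 : F ≠ 0 := ne_zero_of_smooth (m := n + 1) hsm
  refine ⟨fun c hc => not_gpm (dimBound_lt hn) hF hF0 c (hsl c hc), fun x h1 h2 s hs c hc h3 => ?_⟩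
  by_cases hc0 : c = 0
  · have h4 : (fun a => s * x a + c a) = fun a => s * x a := by
      funext a
      rw [hc0, Pi.zero_apply, add_zero]
    rw [h4]
    exact scale hF x s hs h1 h2
  · have h4 : (fun a => s * x a + c a) = fun a => s * x a + 1 * c a := by
      funext a
      rw [one_mul]
    rw [h4] at h3 ⊢
    exact chordm (dimBound_lt hn) (dimBound_gd hn) hF hsm x c h1 h2 hc0 (hΛ c hc) (hsl c hc) s 1
      hs h3

/-- fixed subspaces whose projection has no rational section -/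
theorem clS_of_fixed {n r : ℕ} {F : MvPolynomial (Fin (n + 2)) ℂ}
    (hF : F.IsHomogeneous 3) (hsm : Sm F) {M : Type} [Field M] [Algebra ℂ M]
    (A : Fin r → Fin (n + 2) → ℂ)
    (hA : ∀ a : Fin r → ℂ, eval (fun i => ∑ l, a l * A l i) F = 0) (hsec : ¬ HasSec F A) :
    ClS F (Submodule.span M (Set.range fun l i => algebraMap ℂ M (A l i))) := by
  have hF0 : F ≠ 0 := ne_zero_of_smooth (m := n + 1) hsm
  refine ⟨fun c hc h => ?_, fun x h1 h2 s hs c hc h3 => ?_⟩
  · obtain ⟨w, rfl⟩ := mem_span_lam _ hc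
    obtain ⟨a, ha0, ha⟩ := exists_rel _ (sp1_lt hF0 A hA w)
    exact ha0 (gen_li hF _ h.2 a ha)
  · obtain ⟨w, rfl⟩ := mem_span_lam _ hc
    exact (sec_of_chord hF hsm A hA x _ h3 h1 h2 s w hs fun i => rfl).resolve_right hsec

/-- a basis of a subspace consisting of vectors of a spanning set -/
theorem exists_basis {n : ℕ} {M : Type} [Field M] (S : Set (Fin n → M)) :
    ∃ (P : ℕ) (l : Fin P → Fin n → M), (∀ i, l i ∈ S) ∧ LinearIndependent M l ∧
      Submodule.span M (Set.range l) = Submodule.span M S := by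
  obtain ⟨b, hbS, hb, hli⟩ := exists_linearIndependent M S
  have hfin : Finite b := hli.finite
  have : Fintype b := Fintype.ofFinite b
  let e := (Fintype.equivFin b).symm
  refine ⟨Fintype.card b, fun i => (e i : Fin n → M), fun i => hbS (e i).2,
    hli.comp e e.injective, ?_⟩
  rw [← hb]
  congr 1
  ext c
  constructor
  · rintro ⟨i, rfl⟩
    exact (e i).2
  · intro hc
    exact ⟨e.symm ⟨c, hc⟩, by simp⟩

/-- the extension of a subspace -/
def extd {n : ℕ} {M : Type} [Field M] (N : Type) [Field N] [Algebra M N]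
    (Λ : Submodule M (Fin n → M)) : Submodule N (Fin n → N) :=
  Submodule.span N {y | ∃ c ∈ Λ, y = fun a => algebraMap M N (c a)}

theorem extd_span {n P : ℕ} {M : Type} [Field M] (N : Type) [Field N] [Algebra M N]
    (l : Fin P → Fin n → M) : extd N (Submodule.span M (Set.range l)) =
      Submodule.span N (Set.range fun i a => algebraMap M N (l i a)) := by
  apply le_antisymm
  · unfold extd
    rw [Submodule.span_le]
    rintro _ ⟨c, hc, rfl⟩
    obtain ⟨θ, rfl⟩ := mem_span_lam l hc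
    have h1 : (fun a => algebraMap M N (lam l θ a)) =
        lam (fun i a => algebraMap M N (l i a)) (fun i => algebraMap M N (θ i)) := by
      funext a
      simp only [lam, map_sum, map_mul]
    rw [h1]
    exact lam_mem _ _
  · rw [Submodule.span_le]
    rintro _ ⟨i, rfl⟩
    exact Submodule.subset_span ⟨l i, Submodule.subset_span ⟨i, rfl⟩, rfl⟩

/-- **No sections of odd degree**, for submodules -/
theorem secS {n : ℕ} {F : MvPolynomial (Fin (n + 2)) ℂ} (hF : F.IsHomogeneous 3) (hsm : Sm F)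
    {M : Type} [Field M] [Algebra ℂ M] (Λ : Submodule M (Fin (n + 2) → M))
    (hΛ : ∀ c ∈ Λ, aeval c F = 0) (hcl : ClS F Λ)
    (x : Fin (n + 2) → M) (hG : Gp F x) (hodd : Odd (finrank (ratioField x) M))
    (v : Fin (n + 2) → M) (hv : v ∉ Λ ⊔ Submodule.span M {x})
    (N : Type) [Field N] [Algebra ℂ N] [Algebra M N] [IsScalarTower ℂ M N] (τ : N)
    (hτ : Transcendental M τ) (hN : Odd (finrank (IntermediateField.adjoin M {τ}) N))
    (y : Fin (n + 2) → N) (hy : y ∈ extd N Λ ⊔ Submodule.span N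
      {fun a => algebraMap M N (x a) + τ * algebraMap M N (v a)}) (hyF : aeval y F = 0) :
    y ∈ extd N Λ := by
  obtain ⟨T, hT, hFT⟩ := exists_tri F hF
  have hev : ∀ {R : Type} [CommRing R] [Algebra ℂ R] (v : Fin (n + 2) → R),
      aeval v F = Bg T v v v := by
    intro R _ _ v
    conv_lhs => rw [hFT]
    exact aeval_frmG T v
  obtain ⟨P, l, hlS, hli, hspan⟩ := exists_basis (Λ : Set (Fin (n + 2) → M))
  rw [Submodule.span_eq] at hspan
  have hiso : ∀ i j k, Bg T (l i) (l j) (l k) = 0 := fun i j k =>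
    iso_of_van hT _ (fun c hc => by rw [← hev]; exact hΛ c hc) _ _ _ (hlS i) (hlS j) (hlS k)
  rw [← hspan, extd_span] at hy ⊢
  obtain ⟨c, hc, d, hd, rfl⟩ := Submodule.mem_sup.1 hy
  obtain ⟨θ, rfl⟩ := mem_span_lam _ hc
  obtain ⟨s, rfl⟩ := Submodule.mem_span_singleton.1 hd
  have h1 : s = 0 := by
    refine secP hF hsm hT hFT x hG hodd l (hcl.cl l hspan) hli hiso v ?_ N τ hτ hN s θ ?_
    · intro b θ' h0
      apply hv
      rw [h0, Submodule.mem_sup]
      refine ⟨lam l θ', hspan ▸ lam_mem l θ', b • x, Submodule.smul_mem _ _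
        (Submodule.mem_span_singleton_self x), ?_⟩
      funext a
      simp only [Pi.add_apply, Pi.smul_apply, smul_eq_mul]
      ring
    · rw [← hyF]
      congr 2
      funext a
      simp only [Pi.add_apply, Pi.smul_apply, smul_eq_mul, lam]
      ring
  rw [h1, zero_smul, add_zero]
  exact lam_mem _ _

/-- **No odd families**, for submodules -/
theorem famS {n : ℕ} {F : MvPolynomial (Fin (n + 2)) ℂ} (hF : F.IsHomogeneous 3) (hsm : Sm F)
    {M : Type} [Field M] [Algebra ℂ M] (Λ : Submodule M (Fin (n + 2) → M))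
    (hΛ : ∀ c ∈ Λ, aeval c F = 0) (hcl : ClS F Λ)
    (x : Fin (n + 2) → M) (hG : Gp F x) (hodd : Odd (finrank (ratioField x) M))
    (L : IntermediateField ℂ M) (hΛL : Λ ≤ Submodule.span M {c | c ∈ Λ ∧ ∀ a, c a ∈ L})
    (t : M) (ht : Transcendental L t) (hL : Odd (finrank (IntermediateField.adjoin L {t}) M))
    (u v : Fin (n + 2) → M) (hu : ∀ a, u a ∈ L) (hv : ∀ a, v a ∈ L)
    (hx : x ∈ Λ ⊔ Submodule.span M {fun a => u a + t * v a}) : False := by
  obtain ⟨T, hT, hFT⟩ := exists_tri F hF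
  have hev : ∀ {R : Type} [CommRing R] [Algebra ℂ R] (v : Fin (n + 2) → R),
      aeval v F = Bg T v v v := by
    intro R _ _ v
    conv_lhs => rw [hFT]
    exact aeval_frmG T v
  obtain ⟨P, l, hlS, hli, hspan⟩ := exists_basis {c | c ∈ Λ ∧ ∀ a, c a ∈ L}
  have h1 : Submodule.span M {c | c ∈ Λ ∧ ∀ a, c a ∈ L} = Λ := by
    refine le_antisymm ?_ hΛL
    rw [Submodule.span_le]
    exact fun c hc => hc.1
  rw [h1] at hspan
  have hiso : ∀ i j k, Bg T (l i) (l j) (l k) = 0 := fun i j k =>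
    iso_of_van hT _ (fun c hc => by rw [← hev]; exact hΛ c hc) _ _ _ (hlS i).1 (hlS j).1 (hlS k).1
  rw [← hspan] at hx
  obtain ⟨c, hc, d, hd, hxcd⟩ := Submodule.mem_sup.1 hx
  obtain ⟨θ, rfl⟩ := mem_span_lam _ hc
  obtain ⟨s, rfl⟩ := Submodule.mem_span_singleton.1 hd
  refine famP hF hsm hT hFT x hG hodd l (hcl.cl l hspan) hli hiso L (fun i a => (hlS i).2 a) t ht hL
    u v hu hv s θ fun a => ?_
  rw [← hxcd]
  simp only [Pi.add_apply, Pi.smul_apply, smul_eq_mul]
  ring

end

end Pool.Agent.Helper50.CM
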